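import Pool.Agent.H96.AL.Targets2

/-!
# MP_c9ef16_gt, module GD: squared distances are good functions
-/

open Topology Set Filter Real

namespace Pool.Agent.H62.AL

open Pool.Agent.H96.AL

theorem gd (hEQ : T_EQ) (hFO : T_FO) : T_GD := by
  intro X _ D hD
  haveI := hD.compact
  have key : ∀ E : Set X, Extremal E → ∀ z p : X, Foot E z p → ∀ y : X,
      dist z y ^ 2 / 2 - cosh D ^ 2 * dist z p ^ 2 ≤ dist p y ^ 2 / 2 := by
    intro E hE z p hf y
    have h := hEQ X D hD E hE z p hf y
    have h2 : 0 ≤ cosh D ^ 2 * dist z p ^ 2 := by positivity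
    linarith
  refine ⟨fun a E hE z p hf => ?_, fun A hA hne E hE z p hf => ?_⟩
  · have h := key E hE z p hf a
    rw [dist_comm z a, dist_comm p a] at h
    exact h
  · obtain ⟨⟨a, ha⟩, h1, -⟩ := hFO X A hA hne p
    have h2 := key E hE z p hf a
    have h3 : Metric.infDist z A ≤ dist z a := Metric.infDist_le_dist_of_mem ha.1
    have h4 : Metric.infDist z A ^ 2 ≤ dist z a ^ 2 :=
      pow_le_pow_left₀ Metric.infDist_nonneg h3 2
    unfold hd
    rw [← h1 a ha]
    linarith

end Pool.Agent.H62.AL
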