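import Pool.Agent.H96.AL.Targets2

/-!
# MP_c9ef16_gt, module HD: half of the squared distance to a set
-/

open Topology Set Filter Real

namespace Pool.Agent.H62.AL

open Pool.Agent.H96.AL

theorem sinh_le_mul_cosh {x : ℝ} (hx : 0 ≤ x) : sinh x ≤ x * cosh x := by
  have hm : MonotoneOn (fun x : ℝ => x * cosh x - sinh x) (Ici 0) := by
    apply monotoneOn_of_deriv_nonneg (convex_Ici 0)
    · fun_prop
    · fun_prop
    · intro y hy
      rw [interior_Ici] at hy
      have h1 : HasDerivAt (fun x : ℝ => x * cosh x - sinh x) (1 * cosh y + y * sinh y - cosh y) y :=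
        ((hasDerivAt_id y).mul (hasDerivAt_cosh y)).sub (hasDerivAt_sinh y)
      rw [h1.deriv]
      have h2 : 0 ≤ y * sinh y := mul_nonneg (le_of_lt hy) (sinh_nonneg_iff.2 (le_of_lt hy))
      linarith
  have h := hm (Set.mem_Ici.2 le_rfl) (Set.mem_Ici.2 hx) hx
  simp only [zero_mul, sinh_zero, sub_zero] at h
  linarith

theorem ratio {a b : ℝ} (ha : 0 ≤ a) (hab : a ≤ b) : sinh a * b ≤ a * sinh b := by
  have hm : MonotoneOn (fun x : ℝ => a * sinh x - sinh a * x) (Ici a) := by
    apply monotoneOn_of_deriv_nonneg (convex_Ici a)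
    · fun_prop
    · fun_prop
    · intro y hy
      rw [interior_Ici] at hy
      have h1 : HasDerivAt (fun x : ℝ => a * sinh x - sinh a * x) (a * cosh y - sinh a * 1) y :=
        ((hasDerivAt_sinh y).const_mul a).sub ((hasDerivAt_id y).const_mul (sinh a))
      rw [h1.deriv]
      have h2 := sinh_le_mul_cosh ha
      have h3 : a * cosh a ≤ a * cosh y := by
        apply mul_le_mul_of_nonneg_left _ ha
        rw [cosh_le_cosh, abs_of_nonneg ha, abs_of_nonneg (ha.trans (le_of_lt hy))]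
        exact le_of_lt hy
      linarith
  have h := hm (Set.mem_Ici.2 le_rfl) (Set.mem_Ici.2 hab) hab
  simp only at h
  linarith [mul_comm a (sinh a)]

theorem chord {a b : ℝ} (ha : 0 ≤ a) (hab : a ≤ b) :
    sinh a * ((b ^ 2 - a ^ 2) / 2) ≤ a * (cosh b - cosh a) := by
  have hm : MonotoneOn (fun x : ℝ => a * cosh x - sinh a * (x ^ 2 / 2)) (Ici a) := by
    apply monotoneOn_of_deriv_nonneg (convex_Ici a)
    · fun_prop
    · fun_prop
    · intro y hy
      rw [interior_Ici] at hy
      have h1 : HasDerivAt (fun x : ℝ => a * cosh x - sinh a * (x ^ 2 / 2))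
          (a * sinh y - sinh a * y) y := by
        have h2 : HasDerivAt (fun x : ℝ => x ^ 2 / 2) y y := by
          have := (hasDerivAt_pow 2 y).div_const 2
          simpa using this
        exact ((hasDerivAt_cosh y).const_mul a).sub (h2.const_mul (sinh a))
      rw [h1.deriv]
      linarith [ratio ha (le_of_lt hy)]
  have h := hm (Set.mem_Ici.2 le_rfl) (Set.mem_Ici.2 hab) hab
  simp only at h
  linarith

theorem coth_bound {l : ℝ} (hl : 0 ≤ l) : l * cosh l ≤ (1 + l) * sinh l := by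
  have h1 : cosh l - sinh l = exp (-l) := Real.cosh_sub_sinh l
  have h2 : exp (-l) ≤ 1 := by rw [Real.exp_le_one_iff]; linarith
  have h3 : l ≤ sinh l := by rw [Real.self_le_sinh_iff]; exact hl
  have h4 : l * exp (-l) ≤ l * 1 := mul_le_mul_of_nonneg_left h2 hl
  have h5 : l * cosh l = l * sinh l + l * exp (-l) := by rw [← h1]; ring
  linarith

theorem hd_sc {X : Type} [MetricSpace X] {D : ℝ} (hD : Sp X D) (hQQ : T_QQ) (hFO : T_FO)
    {E : Set X} (hE : IsClosed E) (hne : E.Nonempty) : SC (cosh D) (hd E) := by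
  haveI := hD.compact
  intro x y m t ht h1 h2
  obtain ⟨⟨e, he⟩, h3, -⟩ := hFO X E hE hne m
  have h4 := hQQ X hD.cb e x y m t D ht h1 h2 (hD.diam _ _) (hD.diam _ _)
  have h5 : Metric.infDist x E ^ 2 ≤ dist e x ^ 2 := by
    rw [dist_comm]
    exact pow_le_pow_left₀ Metric.infDist_nonneg (Metric.infDist_le_dist_of_mem he.1) 2
  have h6 : Metric.infDist y E ^ 2 ≤ dist e y ^ 2 := by
    rw [dist_comm]
    exact pow_le_pow_left₀ Metric.infDist_nonneg (Metric.infDist_le_dist_of_mem he.1) 2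
  unfold hd
  rw [← h3 e he, dist_comm m e]
  have h7 : (1 - t) * Metric.infDist x E ^ 2 ≤ (1 - t) * dist e x ^ 2 :=
    mul_le_mul_of_nonneg_left h5 (by linarith [ht.2])
  have h8 : t * Metric.infDist y E ^ 2 ≤ t * dist e y ^ 2 := mul_le_mul_of_nonneg_left h6 ht.1
  linarith

theorem infDist_le_diam {X : Type} [MetricSpace X] {D : ℝ} (hD : Sp X D)
    {E : Set X} (hne : E.Nonempty) (x : X) : Metric.infDist x E ≤ D := by
  obtain ⟨e, he⟩ := hne
  exact (Metric.infDist_le_dist_of_mem he).trans (hD.diam _ _)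

theorem infDist_sub {X : Type} [MetricSpace X] {E : Set X} (x y : X) :
    |Metric.infDist x E - Metric.infDist y E| ≤ dist x y := by
  rw [abs_le]
  constructor
  · have := Metric.infDist_le_infDist_add_dist (s := E) (x := y) (y := x)
    rw [dist_comm] at this
    linarith
  · have := Metric.infDist_le_infDist_add_dist (s := E) (x := x) (y := y)
    linarith

theorem hd_lip {X : Type} [MetricSpace X] {D : ℝ} (hD : Sp X D)
    {E : Set X} (hne : E.Nonempty) : Lip D (hd E) := by
  intro x y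
  have h1 := infDist_sub (E := E) x y
  have h2 := infDist_le_diam hD hne x
  have h3 := infDist_le_diam hD hne y
  have h4 : 0 ≤ Metric.infDist x E := Metric.infDist_nonneg
  have h5 : 0 ≤ Metric.infDist y E := Metric.infDist_nonneg
  unfold hd
  have h6 : Metric.infDist x E ^ 2 / 2 - Metric.infDist y E ^ 2 / 2 =
      (Metric.infDist x E - Metric.infDist y E) *
        ((Metric.infDist x E + Metric.infDist y E) / 2) := by ring
  rw [h6, abs_mul, abs_of_nonneg (by linarith : 0 ≤ (Metric.infDist x E + Metric.infDist y E) / 2),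
    mul_comm D]
  exact mul_le_mul h1 (by linarith) (by linarith) dist_nonneg

/-- the limit of the difference quotient -/
theorem limit {u l c S : ℝ} (hu : 0 < u) (hl : 0 < l) {K : ℝ}
    (hK : u / sinh u * (cosh l * S) / sinh l < K) :
    ∀ᶠ σ in 𝓝[>] (0 : ℝ), (u - σ) / sinh (u - σ) *
      (c * sinh (l - σ) * (cosh σ - 1) + sinh σ * cosh (l - σ) * S) / sinh l ≤ σ * K := by
  have hsub : HasDerivAt (fun σ : ℝ => l - σ) (-1) 0 := by
    simpa using (hasDerivAt_id (0 : ℝ)).const_sub l
  have h1 := hsub.sinh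
  have h2 := hsub.cosh
  have h3 : HasDerivAt (fun σ : ℝ => cosh σ - 1) (sinh 0) 0 := (hasDerivAt_cosh 0).sub_const 1
  have hB := ((h1.const_mul c).mul h3).add (((hasDerivAt_sinh 0).mul h2).mul_const S)
  have hBz := hB.tendsto_slope_zero_right
  have hB' : Tendsto (fun σ : ℝ => σ⁻¹ *
      (c * sinh (l - σ) * (cosh σ - 1) + sinh σ * cosh (l - σ) * S)) (𝓝[>] 0)
      (𝓝 (cosh l * S)) := by
    convert hBz using 1
    · funext σ
      simp
    · simp
  have hA : Tendsto (fun σ : ℝ => (u - σ) / sinh (u - σ)) (𝓝[>] 0) (𝓝 (u / sinh u)) := by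
    have h4 : ContinuousAt (fun σ : ℝ => (u - σ) / sinh (u - σ)) 0 := by
      apply ContinuousAt.div
      · fun_prop
      · fun_prop
      · rw [sub_zero]
        exact (sinh_pos_iff.2 hu).ne'
    have h5 := h4.tendsto.mono_left (nhdsWithin_le_nhds (s := Ioi 0))
    simpa using h5
  have h6 := ((hA.mul hB').div_const (sinh l)).eventually (eventually_lt_nhds hK)
  filter_upwards [h6, self_mem_nhdsWithin] with σ h7 h8
  have h8' : (0 : ℝ) < σ := h8
  have h9 : (u - σ) / sinh (u - σ) *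
      (c * sinh (l - σ) * (cosh σ - 1) + sinh σ * cosh (l - σ) * S) / sinh l =
      σ * ((u - σ) / sinh (u - σ) * (σ⁻¹ *
      (c * sinh (l - σ) * (cosh σ - 1) + sinh σ * cosh (l - σ) * S)) / sinh l) := by
    field_simp
  rw [h9]
  exact mul_le_mul_of_nonneg_left h7.le h8'.le

theorem hd_dge {X : Type} [MetricSpace X] {D : ℝ} (hD : Sp X D) (hEX : T_EX) (hFO : T_FO)
    {E : Set X} (hne : E.Nonempty) (hE : Extremal E) (z y : X) :
    DGe (hd E) z y (-(1 + D) * Metric.infDist z E ^ 2) := by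
  haveI := hD.compact
  intro η hη ε hε
  have hD1 := hD.one_le
  have hu0 : 0 ≤ Metric.infDist z E := Metric.infDist_nonneg
  rcases eq_or_lt_of_le (dist_nonneg : 0 ≤ dist z y) with hl | hl
  · filter_upwards [self_mem_nhdsWithin] with s hs
    have hs' : (0 : ℝ) < s := hs
    rw [← hl, mul_zero, hη.1]
    have h1 : 0 ≤ (1 + D) * Metric.infDist z E ^ 2 := by positivity
    nlinarith
  rcases eq_or_lt_of_le hu0 with hu | hu
  · filter_upwards [self_mem_nhdsWithin] with s hs
    have hs' : (0 : ℝ) < s := hs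
    have h1 : 0 ≤ hd E (η (s * dist z y)) := by unfold hd; positivity
    have h2 : hd E z = 0 := by unfold hd; rw [← hu]; simp
    rw [h2, ← hu]
    nlinarith
  -- the main case
  set l := dist z y with hl_def
  set u := Metric.infDist z E with hu_def
  have hcu : 0 < cosh u := cosh_pos u
  have hsl : 0 < sinh l := sinh_pos_iff.2 hl
  have hsu : 0 < sinh u := sinh_pos_iff.2 hu
  have hlD : l ≤ D := hD.diam z y
  have hK : u / sinh u * (cosh l * (sinh u ^ 2 / cosh u)) / sinh l <
      ((1 + D) * u ^ 2 + ε) / l := by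
    rw [lt_div_iff₀ hl]
    have h1 := sinh_le_mul_cosh hu.le
    have h2 := coth_bound hl.le
    have h3 : u / sinh u * (cosh l * (sinh u ^ 2 / cosh u)) / sinh l * l =
        u * (sinh u / cosh u) * (l * cosh l / sinh l) := by field_simp
    rw [h3]
    have h4 : sinh u / cosh u ≤ u := by rw [div_le_iff₀ hcu]; exact h1
    have h5 : l * cosh l / sinh l ≤ 1 + l := by rw [div_le_iff₀ hsl]; exact h2
    have h6 : u * (sinh u / cosh u) * (l * cosh l / sinh l) ≤ u * u * (1 + l) := by
      apply mul_le_mul (mul_le_mul_of_nonneg_left h4 hu.le) h5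
      · exact div_nonneg (mul_nonneg hl.le (cosh_pos l).le) hsl.le
      · positivity
    have h7 : u * u * (1 + l) ≤ u * u * (1 + D) :=
      mul_le_mul_of_nonneg_left (by linarith) (by positivity)
    nlinarith
  have hlim := limit (c := cosh u) hu hl hK
  have htend : Tendsto (fun s : ℝ => s * l) (𝓝[>] 0) (𝓝[>] 0) := by
    apply tendsto_nhdsWithin_of_tendsto_nhds_of_eventually_within
    · have h1 : Tendsto (fun s : ℝ => s * l) (𝓝 0) (𝓝 (0 * l)) := by
        apply Continuous.tendsto; fun_prop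
      rw [zero_mul] at h1
      exact h1.mono_left nhdsWithin_le_nhds
    · filter_upwards [self_mem_nhdsWithin] with s hs
      exact mul_pos hs hl
  have hsmall : ∀ᶠ σ in 𝓝[>] (0 : ℝ), σ < l ∧ σ < u := by
    have h1 : ∀ᶠ σ in 𝓝 (0 : ℝ), σ < l ∧ σ < u :=
      (eventually_lt_nhds hl).and (eventually_lt_nhds hu)
    exact h1.filter_mono nhdsWithin_le_nhds
  filter_upwards [self_mem_nhdsWithin, htend.eventually hlim, htend.eventually hsmall]
    with s hs h1 h2
  have hs' : (0 : ℝ) < s := hs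
  obtain ⟨hσl, hσu⟩ := h2
  have hσ : 0 < s * l := mul_pos hs' hl
  obtain ⟨hη0, hη1, hη2⟩ := hη
  set σ := s * l with hσ_def
  set w := η σ with hw_def
  have hmem0 : (0 : ℝ) ∈ Icc (0 : ℝ) l := ⟨le_rfl, hl.le⟩
  have hmeml : l ∈ Icc (0 : ℝ) l := ⟨hl.le, le_rfl⟩
  have hmems : σ ∈ Icc (0 : ℝ) l := ⟨hσ.le, hσl.le⟩
  have hzw : dist z w = σ := by
    have := hη2 0 hmem0 σ hmems
    rw [hη0] at this
    rw [this, zero_sub, abs_neg, abs_of_pos hσ]
  have hwy : dist w y = l - σ := by
    have := hη2 σ hmems l hmeml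
    rw [hη1] at this
    rw [this, abs_sub_comm, abs_of_nonneg (by linarith)]
  obtain ⟨⟨p, hp⟩, h3, -⟩ := hFO X E hE.1 hne w
  have hps := h3 p hp
  set v := Metric.infDist w E with hv_def
  have hv0 : 0 ≤ v := Metric.infDist_nonneg
  have huv : |u - v| ≤ σ := by
    rw [← hzw]
    exact infDist_sub z w
  rw [abs_le] at huv
  -- the claim in terms of `u` and `v`
  change u ^ 2 / 2 + s * (-(1 + D) * u ^ 2 - ε) ≤ v ^ 2 / 2
  rcases le_or_gt u v with huv' | huv'
  · have h4 : u ^ 2 ≤ v ^ 2 := pow_le_pow_left₀ hu.le huv' 2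
    have h5 : 0 ≤ (1 + D) * u ^ 2 := by positivity
    nlinarith
  have hvpos : 0 < v := by linarith [huv.2]
  have hcv : 0 < cosh v := cosh_pos v
  have hcvu : cosh v ≤ cosh u := by
    rw [cosh_le_cosh, abs_of_pos hvpos, abs_of_pos hu]; exact huv'.le
  -- comparison
  have hbt : Pool.Agent.H96.AL.Btw z w y := by
    change dist z w + dist w y = dist z y
    rw [hzw, hwy, ← hl_def]; ring
  have hcb := hD.cb p z y w hbt
  rw [hwy, hzw, ← hl_def, dist_comm p w, hps] at hcb
  have hex := hEX X hD.geo hD.cb E hE w p hp y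
  rw [hwy, hps] at hex
  have hpz : cosh u ≤ cosh (dist p z) := by
    rw [cosh_le_cosh, abs_of_pos hu, abs_of_nonneg dist_nonneg, dist_comm]
    exact Metric.infDist_le_dist_of_mem hp.1
  have hshl : 0 ≤ sinh (l - σ) := sinh_nonneg_iff.2 (by linarith)
  have hshs : 0 ≤ sinh σ := sinh_nonneg_iff.2 hσ.le
  have hchl : 0 < cosh (l - σ) := cosh_pos _
  have hpy : cosh (l - σ) / cosh u ≤ cosh (dist p y) := by
    rw [div_le_iff₀ hcu]
    calc cosh (l - σ) ≤ cosh v * cosh (dist p y) := hex
      _ ≤ cosh u * cosh (dist p y) :=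
        mul_le_mul_of_nonneg_right hcvu (cosh_pos _).le
      _ = cosh (dist p y) * cosh u := mul_comm _ _
  have hmain : sinh (l - σ) * cosh u + sinh σ * (cosh (l - σ) / cosh u) ≤ sinh l * cosh v :=
    le_trans (add_le_add (mul_le_mul_of_nonneg_left hpz hshl)
      (mul_le_mul_of_nonneg_left hpy hshs)) hcb
  have hadd : sinh l = sinh (l - σ) * cosh σ + cosh (l - σ) * sinh σ := by
    rw [← sinh_add]; congr 1; ring
  have hcs : cosh u ^ 2 = sinh u ^ 2 + 1 := cosh_sq u
  have hdiff : sinh l * (cosh u - cosh v) ≤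
      cosh u * sinh (l - σ) * (cosh σ - 1) + sinh σ * cosh (l - σ) * (sinh u ^ 2 / cosh u) := by
    have e1 : sinh σ * cosh (l - σ) * (sinh u ^ 2 / cosh u) =
        sinh σ * cosh (l - σ) * cosh u - sinh σ * (cosh (l - σ) / cosh u) := by
      have : sinh u ^ 2 = cosh u ^ 2 - 1 := by linarith
      rw [this]
      field_simp
    rw [e1]
    have e2 : sinh l * cosh u = (sinh (l - σ) * cosh σ + cosh (l - σ) * sinh σ) * cosh u := by
      rw [← hadd]
    nlinarith
  -- from `cosh` to squares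
  have hsv : 0 < sinh v := sinh_pos_iff.2 hvpos
  have hch := chord hv0 huv'.le
  have hsuσ : 0 < sinh (u - σ) := sinh_pos_iff.2 (by linarith)
  have hra : v / sinh v ≤ (u - σ) / sinh (u - σ) := by
    rw [div_le_div_iff₀ hsv hsuσ]
    have := ratio (a := u - σ) (b := v) (by linarith) (by linarith [huv.2])
    linarith
  have hfin : (u ^ 2 - v ^ 2) / 2 ≤ σ * (((1 + D) * u ^ 2 + ε) / l) := by
    refine le_trans ?_ h1
    have e3 : (u ^ 2 - v ^ 2) / 2 ≤ v / sinh v * (cosh u - cosh v) := by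
      rw [div_mul_eq_mul_div, le_div_iff₀ hsv]
      linarith
    have e4 : cosh u - cosh v ≤ (cosh u * sinh (l - σ) * (cosh σ - 1) +
        sinh σ * cosh (l - σ) * (sinh u ^ 2 / cosh u)) / sinh l := by
      rw [le_div_iff₀ hsl]
      linarith
    have e5 : 0 ≤ cosh u - cosh v := by linarith
    have e6 : 0 ≤ (u - σ) / sinh (u - σ) := div_nonneg (by linarith) hsuσ.le
    calc (u ^ 2 - v ^ 2) / 2 ≤ v / sinh v * (cosh u - cosh v) := e3
      _ ≤ (u - σ) / sinh (u - σ) * (cosh u - cosh v) := mul_le_mul_of_nonneg_right hra e5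
      _ ≤ (u - σ) / sinh (u - σ) * ((cosh u * sinh (l - σ) * (cosh σ - 1) +
        sinh σ * cosh (l - σ) * (sinh u ^ 2 / cosh u)) / sinh l) :=
          mul_le_mul_of_nonneg_left e4 e6
      _ = _ := by ring
  have e7 : σ * (((1 + D) * u ^ 2 + ε) / l) = s * ((1 + D) * u ^ 2 + ε) := by
    rw [hσ_def]; field_simp
  rw [e7] at hfin
  linarith

/-- HD: the function `hd` -/
theorem hd_ (hQQ : T_QQ) (hEX : T_EX) (hFO : T_FO) : T_HD := by
  intro X _ D hD E hE hne
  exact ⟨hd_sc hD hQQ hFO hE hne, hd_lip hD hne,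
    fun hex z y => hd_dge hD hEX hFO hne hex z y⟩

end Pool.Agent.H62.AL
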