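import Pool.Agent.H96.AL.Targets2

/-!
# MP_c9ef16_gt, module IN: gradient curves of good functions stay in extremal subsets
-/

open Topology Set Filter Real

namespace Pool.Agent.H62.AL

open Pool.Agent.H96.AL

theorem lip_continuous {X : Type} [MetricSpace X] {L : ℝ} {g : X → ℝ} (hL : 0 ≤ L)
    (h : Lip L g) : Continuous g := by
  have h1 : LipschitzWith (Real.toNNReal L) g := by
    apply LipschitzWith.of_dist_le_mul
    intro x y
    rw [Real.dist_eq, Real.coe_toNNReal L hL]
    exact h x y
  exact h1.continuous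

theorem flow_continuousOn {X : Type} [MetricSpace X] {L : ℝ} {g : X → ℝ} {α : ℝ → X}
    (h : IsFlow L g α) : ContinuousOn α (Ici 0) := by
  have h1 : LipschitzOnWith (Real.toNNReal L) α (Ici 0) := by
    apply LipschitzOnWith.of_dist_le_mul
    intro x hx y hy
    refine (h.lip x y hx hy).trans ?_
    rw [Real.dist_eq]
    exact mul_le_mul_of_nonneg_right (Real.le_coe_toNNReal L) (abs_nonneg _)
  exact h1.continuousOn

/-- an integral bound gives a bound for the right upper derivative -/
theorem dini_of_integral {v w : ℝ → ℝ} (hw : ContinuousOn w (Ici 0)) {x : ℝ} (hx : 0 ≤ x)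
    (h : ∀ z, x ≤ z → v z - v x ≤ ∫ s in x..z, w s) (r : ℝ) (hr : w x < r) :
    ∀ᶠ z in 𝓝[>] x, (z - x)⁻¹ * (v z - v x) < r := by
  obtain ⟨q, hq1, hq2⟩ := exists_between hr
  have h1 : ∀ᶠ s in 𝓝[Ici 0] x, w s < q := (hw x hx).eventually (eventually_lt_nhds hq1)
  obtain ⟨δ, hδ, h2⟩ := Metric.mem_nhdsWithin_iff.1 h1
  have h3 : Ioo x (x + δ) ∈ 𝓝[>] x := Ioo_mem_nhdsGT (by linarith)
  filter_upwards [h3] with z hz
  have hxz : x < z := hz.1
  have h4 : ∀ s ∈ Icc x z, w s < q := by
    intro s hs
    apply h2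
    refine ⟨?_, hx.trans hs.1⟩
    rw [Metric.mem_ball, Real.dist_eq, abs_of_nonneg (by linarith [hs.1])]
    linarith [hs.2, hz.2]
  have h5 : ∫ s in x..z, w s ≤ ∫ s in x..z, q := by
    apply intervalIntegral.integral_mono_on hxz.le
    · apply ContinuousOn.intervalIntegrable
      rw [uIcc_of_le hxz.le]
      exact hw.mono fun s hs => hx.trans hs.1
    · exact intervalIntegrable_const
    · intro s hs
      exact (h4 s hs).le
  rw [intervalIntegral.integral_const, smul_eq_mul] at h5
  have h6 : v z - v x ≤ (z - x) * q := (h z hxz.le).trans h5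
  have h7 : 0 < z - x := by linarith
  calc (z - x)⁻¹ * (v z - v x) ≤ (z - x)⁻¹ * ((z - x) * q) :=
        mul_le_mul_of_nonneg_left h6 (by positivity)
    _ = q := by field_simp
    _ < r := hq2

theorem in_ (hDS : T_DS) (hFO : T_FO) : T_IN := by
  intro X _ D hD g L Λ C L' hL hΛ hC hLip hSC hGood α hα E hE h0 t ht
  haveI := hD.compact
  have hne : E.Nonempty := ⟨_, h0⟩
  have hg := lip_continuous hL hLip
  have hαc := flow_continuousOn hα
  have hvc : ContinuousOn (fun t => Metric.infDist (α t) E ^ 2 / 2) (Ici 0) := by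
    have h1 : ContinuousOn (fun t => Metric.infDist (α t) E) (Ici 0) :=
      (Metric.continuous_infDist_pt E).comp_continuousOn hαc
    exact (h1.pow 2).div_const 2
  have hv : ∀ x ∈ Icc (0 : ℝ) t, Metric.infDist (α x) E ^ 2 / 2 ≤
      gronwallBound 0 (2 * C + Λ) 0 (x - 0) := by
    apply le_gronwallBound_of_liminf_deriv_right_le
      (f' := fun x => (2 * C + Λ) * (Metric.infDist (α x) E ^ 2 / 2))
    · exact hvc.mono fun s hs => hs.1
    · intro x hx r hr
      obtain ⟨⟨p, hp⟩, h1, -⟩ := hFO X E hE.1 hne (α x)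
      have hd := h1 p hp
      have hΘc : Continuous fun z => g z - g p + Λ / 2 * dist z p ^ 2 := by fun_prop
      have hev := hα.evi p (fun z => g z - g p + Λ / 2 * dist z p ^ 2) hΘc (fun z => by
        have h2 := hDS X Λ g hSC z p
        have h3 : -(g z - g p + Λ / 2 * dist z p ^ 2) = g p - g z - Λ / 2 * dist z p ^ 2 := by
          ring
        rw [h3]
        exact h2)
      have hw : ContinuousOn (fun s => g (α s) - g p + Λ / 2 * dist (α s) p ^ 2) (Ici 0) :=
        hΘc.comp_continuousOn hαc
      refine (dini_of_integral (v := fun t => Metric.infDist (α t) E ^ 2 / 2) hw hx.1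
        (fun z hz => ?_) r ?_).frequently
      · have h4 := hev x z hx.1 hz
        have h5 : Metric.infDist (α z) E ^ 2 ≤ dist (α z) p ^ 2 :=
          pow_le_pow_left₀ Metric.infDist_nonneg (Metric.infDist_le_dist_of_mem hp.1) 2
        rw [← hd]
        linarith
      · refine lt_of_le_of_lt ?_ hr
        have h6 := hGood E hE (α x) p hp
        rw [← hd]
        linarith
    · rw [Metric.infDist_zero_of_mem h0]
      simp
    · intro x _
      simp
  have h7 := hv t ⟨ht, le_rfl⟩
  rw [gronwallBound_ε0, zero_mul] at h7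
  have h8 : Metric.infDist (α t) E = 0 := by
    have h9 : 0 ≤ Metric.infDist (α t) E := Metric.infDist_nonneg
    nlinarith [sq_nonneg (Metric.infDist (α t) E)]
  exact (hFO X E hE.1 hne (α t)).2.2.1 h8

end Pool.Agent.H62.AL
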